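import Mathlib

namespace Pool.Agent.Results.MP_8f05cb_co.Asymptotic

open Matrix Finset

open Classical in
/-- Perfect state transfer between two distinct vertices at some time. -/
def HasPST {V : Type} [Fintype V] (G : SimpleGraph V) : Prop :=
  ∃ (u v : V) (t : ℝ) (γ : ℂ), u ≠ v ∧ ‖γ‖ = 1 ∧
    NormedSpace.exp ((Complex.I * t) • G.adjMatrix ℂ) *ᵥ Pi.single u 1 = γ • Pi.single v 1

/-- `m(n)`: the least number of edges of a connected graph on `n` vertices with PST. -/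
noncomputable def minEdges (n : ℕ) : ℕ∞ :=
  ⨅ (G : SimpleGraph (Fin n)) (_ : G.Connected ∧ HasPST G), G.edgeSet.encard

section spectral
variable {W : Type} [Fintype W] [DecidableEq W]

theorem exp_eig (A : Matrix W W ℂ) (s mu : ℂ) (y : W → ℂ) (hy : A *ᵥ y = mu • y) :
    NormedSpace.exp (s • A) *ᵥ y = Complex.exp (s * mu) • y := by
  have h1 : ∀ m : ℕ, ((s • A) ^ m) *ᵥ y = (s * mu) ^ m • y := by
    intro m
    induction m with
    | zero => simp
    | succ m ih =>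
      rw [pow_succ, ← mulVec_mulVec, smul_mulVec, hy, smul_smul, mulVec_smul, ih, smul_smul,
        pow_succ']
  letI : NormedRing (Matrix W W ℂ) := Matrix.linftyOpNormedRing
  letI : NormedAlgebra ℂ (Matrix W W ℂ) := Matrix.linftyOpNormedAlgebra
  have h2 := NormedSpace.exp_series_hasSum_exp' (𝕂 := ℂ) (s • A)
  let f : Matrix W W ℂ →ₗ[ℂ] (W → ℂ) :=
    { toFun := fun M => M *ᵥ y
      map_add' := fun M N => add_mulVec M N y
      map_smul' := fun c M => smul_mulVec c M y }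
  have h3 := h2.map f f.continuous_of_finiteDimensional
  have h4 := (NormedSpace.exp_series_hasSum_exp' (𝕂 := ℂ) (s * mu)).smul_const y
  rw [← Complex.exp_eq_exp_ℂ] at h4
  refine h3.unique ?_
  convert! h4 using 1
  funext m
  show ((m.factorial : ℂ)⁻¹ • (s • A) ^ m) *ᵥ y = _
  rw [smul_mulVec, h1, smul_assoc]

theorem exp_hs (A : Matrix W W ℂ) :
    HasSum (fun m : ℕ => ((m.factorial : ℂ)⁻¹) • A ^ m) (NormedSpace.exp A) := by
  letI : NormedRing (Matrix W W ℂ) := Matrix.linftyOpNormedRing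
  letI : NormedAlgebra ℂ (Matrix W W ℂ) := Matrix.linftyOpNormedAlgebra
  exact NormedSpace.exp_series_hasSum_exp' (𝕂 := ℂ) A

theorem exp_reindex {W' : Type} [Fintype W'] [DecidableEq W'] (e : W ≃ W') (A : Matrix W W ℂ) :
    NormedSpace.exp (Matrix.reindexAlgEquiv ℂ ℂ e A) =
      Matrix.reindexAlgEquiv ℂ ℂ e (NormedSpace.exp A) := by
  have h := (exp_hs A).map (Matrix.reindexAlgEquiv ℂ ℂ e).toLinearMap
    (Matrix.reindexAlgEquiv ℂ ℂ e).toLinearMap.continuous_of_finiteDimensional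
  refine (exp_hs _).unique ?_
  convert! h using 1
  funext m
  show _ = Matrix.reindexAlgEquiv ℂ ℂ e _
  rw [map_smul, map_pow]

theorem four (A : Matrix W W ℂ) (s r b : ℂ) (x w c y : W → ℂ) (hr : r ^ 2 = 2) (hb : b ≠ 0)
    (hb1 : b ^ 2 - 1 ≠ 0)
    (h1 : A *ᵥ x = (2 : ℂ) • w) (h2 : A *ᵥ w = (2 : ℂ) • x + c)
    (h3 : A *ᵥ c = (b ^ 2 - 2) • w + y) (h4 : A *ᵥ y = (b ^ 2) • c)
    (e1 : Complex.exp (s * r) = -1) (e2 : Complex.exp (s * (-r)) = -1)
    (e3 : Complex.exp (s * (b * r)) = -1) (e4 : Complex.exp (s * (-(b * r))) = -1) :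
    NormedSpace.exp (s • A) *ᵥ x = -x := by
  let z : ℂ → W → ℂ := fun l =>
    (l ^ 3 - (2 * b ^ 2 - 2) * l) • x + (2 * (l ^ 2 - b ^ 2)) • w + (2 * l) • c + (2 : ℂ) • y
  have hz : ∀ l, (l ^ 2 - 2) * (l ^ 2 - 2 * b ^ 2) = 0 → A *ᵥ z l = l • z l := by
    intro l hl
    simp only [z, mulVec_add, mulVec_smul, h1, h2, h3, h4]
    have : l • ((l ^ 3 - (2 * b ^ 2 - 2) * l) • x) = (4 * (l ^ 2 - b ^ 2)) • x := by
      rw [smul_smul]; congr 1; linear_combination hl
    simp only [smul_add l, this]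
    module
  have k1 := exp_eig A s r _ (hz r (by rw [hr]; simp))
  have k2 := exp_eig A s (-r) _ (hz (-r) (by rw [neg_sq, hr]; simp))
  have k3 := exp_eig A s (b * r) _ (hz (b * r) (by rw [mul_pow, hr]; ring))
  have k4 := exp_eig A s (-(b * r)) _ (hz (-(b * r)) (by rw [neg_sq, mul_pow, hr]; ring))
  rw [e1] at k1; rw [e2] at k2; rw [e3] at k3; rw [e4] at k4
  have hr0 : r ≠ 0 := by rintro rfl; norm_num at hr
  have hk : (4 * b * r * (b ^ 2 - 1) : ℂ) ≠ 0 := by simp [hb, hr0, hb1]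
  have hx : (4 * b * r * (b ^ 2 - 1)) • x = (z (b * r) - z (-(b * r))) - b • (z r - z (-r)) := by
    have q1 : (b * r) ^ 3 = 2 * b ^ 3 * r := by linear_combination b ^ 3 * r * hr
    have q2 : r ^ 3 = 2 * r := by linear_combination r * hr
    simp only [z, neg_sq, Odd.neg_pow (by decide : Odd 3), q1, q2]
    module
  apply smul_right_injective _ hk
  show _ • _ = _ • _
  rw [← mulVec_smul, smul_neg, hx, mulVec_sub, mulVec_smul, mulVec_sub, mulVec_sub, k1, k2, k3, k4]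
  module

theorem mk_pst {V : Type} [Fintype V] [i : DecidableEq V] (G : SimpleGraph V)
    [j : DecidableRel G.Adj] (u v : V) (t : ℝ) (γ : ℂ) (h1 : u ≠ v) (h2 : ‖γ‖ = 1)
    (h : NormedSpace.exp ((Complex.I * t) • G.adjMatrix ℂ) *ᵥ Pi.single u 1 = γ • Pi.single v 1) :
    HasPST G := by
  obtain rfl : i = fun a b => Classical.propDecidable (a = b) := Subsingleton.elim _ _
  obtain rfl : j = fun a b => Classical.propDecidable (G.Adj a b) := Subsingleton.elim _ _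
  exact ⟨u, v, t, γ, h1, h2, h⟩

end spectral

section graph
variable (p : ℕ) {L : Type} (N : L → Finset (Fin 2 × Fin p))

abbrev VV (p : ℕ) (L : Type) := Fin 2 ⊕ Fin 2 ⊕ (Fin 2 × Fin p) ⊕ L

def ad : VV p L → VV p L → Prop
  | .inl _, .inr (.inl _) => True
  | .inr (.inl _), .inl _ => True
  | .inr (.inl i), .inr (.inr (.inl c)) => c.1 = i
  | .inr (.inr (.inl c)), .inr (.inl i) => c.1 = i
  | .inr (.inr (.inl c)), .inr (.inr (.inr l)) => c ∈ N l
  | .inr (.inr (.inr l)), .inr (.inr (.inl c)) => c ∈ N l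
  | _, _ => False

def GG : SimpleGraph (VV p L) where
  Adj := ad p N
  symm := ⟨by rintro (a | a | a | a) (b | b | b | b) h <;> exact h⟩
  loopless := ⟨by rintro (a | a | a | a) h <;> exact h⟩

theorem conn (hN : ∀ l, (N l).Nonempty) : (GG p N).Connected := by
  have h1 : ∀ i, (GG p N).Reachable (.inl 0) (.inr (.inl i)) := fun i =>
    SimpleGraph.Adj.reachable trivial
  have h2 : ∀ c, (GG p N).Reachable (.inl 0) (.inr (.inr (.inl c))) := fun c =>
    (h1 c.1).trans (SimpleGraph.Adj.reachable rfl)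
  have h : ∀ v, (GG p N).Reachable (.inl 0) v := by
    rintro (a | a | a | a)
    · exact (h1 0).trans (SimpleGraph.Adj.reachable trivial)
    · exact h1 a
    · exact h2 a
    · obtain ⟨c, hc⟩ := hN a
      exact (h2 c).trans (SimpleGraph.Adj.reachable hc)
  exact { preconnected := fun u v => (h u).symm.trans (h v) }

theorem edges [Fintype L] : (GG p N).edgeSet.encard ≤ ((4 + 2 * p + ∑ l, (N l).card : ℕ) : ℕ∞) := by
  classical
  let f : (Fin 2 × Fin 2) ⊕ (Fin 2 × Fin p) ⊕ (Σ l, N l) → Sym2 (VV p L) :=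
    Sum.elim (fun a => s(.inl a.1, .inr (.inl a.2))) (Sum.elim
      (fun c => s(.inr (.inl c.1), .inr (.inr (.inl c))))
      (fun e => s(.inr (.inr (.inl e.2.1)), .inr (.inr (.inr e.1)))))
  have h : (GG p N).edgeSet ⊆ f '' Set.univ := by
    intro e
    induction e using Sym2.ind with
    | _ u v =>
      rw [SimpleGraph.mem_edgeSet, Set.image_univ]
      rcases u with a | a | a | a <;> rcases v with b | b | b | b <;> intro h <;>
        first
        | exact h.elim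
        | exact ⟨.inl (a, b), rfl⟩
        | exact ⟨.inl (b, a), Sym2.eq_swap⟩
        | (cases h; exact ⟨.inr (.inl b), rfl⟩)
        | (cases h; exact ⟨.inr (.inl a), Sym2.eq_swap⟩)
        | exact ⟨.inr (.inr ⟨b, a, h⟩), rfl⟩
        | exact ⟨.inr (.inr ⟨a, b, h⟩), Sym2.eq_swap⟩
  refine (Set.encard_le_encard h).trans ((Set.encard_image_le _ _).trans ?_)
  rw [Set.encard_univ, ENat.card_eq_coe_fintype_card]
  simp [add_assoc]

theorem pst [Fintype L] (b : ℕ) (hb : Odd b) (hb1 : 1 < b) (hp : p + 2 = b ^ 2)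
    (hN : ∀ c, ∑ l with c ∈ N l, (N l).card = b ^ 2) : HasPST (GG p N) := by
  classical
  let A := @SimpleGraph.adjMatrix ℂ _ (GG p N) (fun _ _ => Classical.propDecidable _) _ _
  have hA : ∀ u v, A u v = if ad p N u v then 1 else 0 := fun u v => by
    simp only [A, SimpleGraph.adjMatrix_apply]; rfl
  let x : VV p L → ℂ := Sum.elim 1 0
  let w : VV p L → ℂ := Sum.elim 0 (Sum.elim 1 0)
  let c : VV p L → ℂ := Sum.elim 0 (Sum.elim 0 (Sum.elim 1 0))
  let y : VV p L → ℂ := Sum.elim 0 (Sum.elim 0 (Sum.elim 0 fun l => (N l).card))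
  have hp' : (p : ℂ) = b ^ 2 - 2 := by
    have : (p : ℂ) + 2 = b ^ 2 := by exact_mod_cast hp
    linear_combination this
  have hs : ((√2 : ℝ) : ℂ) ^ 2 = 2 := by
    rw [← Complex.ofReal_pow, Real.sq_sqrt (by norm_num)]; norm_num
  have hs0 : ((√2 : ℝ) : ℂ) ≠ 0 := by
    intro h; rw [h] at hs; norm_num at hs
  have e1 : Complex.I * ((Real.pi / √2 : ℝ) : ℂ) * (√2 : ℝ) = Real.pi * Complex.I := by
    push_cast; field_simp
  have k := four A (Complex.I * ((Real.pi / √2 : ℝ) : ℂ)) (√2 : ℝ) b x w c y hs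
    (by exact_mod_cast (by omega : b ≠ 0))
    (by
      have : b ^ 2 ≠ 1 := by nlinarith
      rw [sub_ne_zero]; exact_mod_cast this)
    (by
      funext u
      rcases u with a | a | a | a <;> simp [mulVec, dotProduct, hA, ad, x, w])
    (by
      funext u
      rcases u with a | a | a | a <;> simp [mulVec, dotProduct, hA, ad, x, w, c])
    (by
      funext u
      rcases u with a | a | a | a <;>
        simp [mulVec, dotProduct, hA, ad, y, w, c, ← hp']
      have : ({x | x.1 = a} : Finset (Fin 2 × Fin p)) = {a} ×ˢ univ := by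
        ext ⟨x1, x2⟩; simp [eq_comm]
      rw [this]; simp)
    (by
      funext u
      rcases u with a | a | a | a <;> simp [mulVec, dotProduct, hA, ad, y, c]
      rw [← Finset.sum_filter]
      exact_mod_cast hN a)
    (by rw [e1, Complex.exp_pi_mul_I])
    (by rw [mul_neg, e1, Complex.exp_neg, Complex.exp_pi_mul_I]; norm_num)
    (by rw [mul_left_comm, e1, Complex.exp_nat_mul, Complex.exp_pi_mul_I, hb.neg_one_pow])
    (by
      rw [mul_neg, mul_left_comm, e1, Complex.exp_neg, Complex.exp_nat_mul, Complex.exp_pi_mul_I,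
        hb.neg_one_pow]
      norm_num)
  have k2 := exp_eig A (Complex.I * ((Real.pi / √2 : ℝ) : ℂ)) 0
    (Pi.single (.inl 0) 1 - Pi.single (.inl 1) 1) (by
      funext u
      rcases u with a | a | a | a <;> simp [mulVec_sub, hA, ad])
  have hx : x = Pi.single (.inl 0) 1 + Pi.single (.inl 1) 1 := by
    funext u
    rcases u with a | a | a | a
    · fin_cases a <;> simp [x]
    all_goals simp [x]
  refine @mk_pst _ _ _ (GG p N) (fun _ _ => Classical.propDecidable _) (.inl 0) (.inl 1)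
    (Real.pi / √2) (-1) (by simp) (by simp) ?_
  rw [hx, mulVec_add] at k
  rw [mulVec_sub, mul_zero, Complex.exp_zero, one_smul] at k2
  change NormedSpace.exp ((Complex.I * ((Real.pi / √2 : ℝ) : ℂ)) • A) *ᵥ _ = _
  linear_combination (norm := module) (1 / 2 : ℂ) • k + (1 / 2 : ℂ) • k2

theorem build (b : ℕ) (hp : p + 2 = b ^ 2) {J : Type} [Fintype J] (d : J → ℕ)
    (h1 : ∀ j, 1 ≤ d j) (h2 : ∀ j, d j ≤ 2 * p) (h3 : ∑ j, d j ≤ b ^ 2) :
    ∃ (L : Type) (_ : Fintype L) (N : L → Finset (Fin 2 × Fin p)), (∀ l, (N l).Nonempty) ∧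
      (∀ c, ∑ l with c ∈ N l, (N l).card = b ^ 2) ∧
      Fintype.card L + ∑ j, d j ^ 2 = Fintype.card J + 2 * p * b ^ 2 ∧
      ∑ l, (N l).card + Fintype.card J = Fintype.card L + ∑ j, d j := by
  classical
  have hs : ∀ j, ∃ s : Finset (Fin 2 × Fin p), s.card = d j := fun j => by
    obtain ⟨s, -, hs⟩ := Finset.exists_subset_card_eq (s := (univ : Finset (Fin 2 × Fin p)))
      (n := d j) (by simpa using h2 j)
    exact ⟨s, hs⟩
  choose s hs using hs
  let ld : Fin 2 × Fin p → ℕ := fun c => ∑ j, if c ∈ s j then d j else 0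
  have hld : ∀ c, ld c ≤ b ^ 2 := fun c =>
    (Finset.sum_le_sum fun j _ => by split_ifs <;> simp).trans h3
  have hsum : ∑ c, ld c = ∑ j, d j ^ 2 := by
    simp only [ld]
    rw [Finset.sum_comm]
    refine Finset.sum_congr rfl fun j _ => ?_
    rw [← Finset.sum_filter, Finset.sum_const, Finset.filter_univ_mem, hs, smul_eq_mul, sq]
  have hsub : ∑ c, (b ^ 2 - ld c) + ∑ c, ld c = 2 * p * b ^ 2 := by
    rw [← Finset.sum_add_distrib, Finset.sum_congr rfl fun c _ => Nat.sub_add_cancel (hld c)]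
    simp
  refine ⟨J ⊕ (Σ c, Fin (b ^ 2 - ld c)), inferInstance, Sum.elim s fun e => {e.1}, ?_, ?_, ?_, ?_⟩
  · rintro (j | e)
    · exact Finset.card_pos.1 (by rw [Sum.elim_inl, hs]; exact h1 j)
    · simp
  · intro c
    rw [Finset.sum_filter, Fintype.sum_sum_type, Fintype.sum_sigma]
    simp only [Sum.elim_inl, Sum.elim_inr, hs, Finset.mem_singleton, Finset.card_singleton,
      Finset.sum_const, Finset.card_univ, Fintype.card_fin, smul_eq_mul, mul_ite, mul_one, mul_zero,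
      Finset.sum_ite_eq, Finset.mem_univ, if_true]
    have := hld c
    change ld c + _ = _
    omega
  · simp only [Fintype.card_sum, Fintype.card_sigma, Fintype.card_fin]
    omega
  · simp only [Fintype.card_sum, Fintype.card_sigma, Fintype.card_fin, Fintype.sum_sum_type,
      Sum.elim_inl, Sum.elim_inr, hs, Finset.card_singleton, Finset.sum_const, Finset.card_univ,
      smul_eq_mul, mul_one]
    omega

end graph

theorem pst_iso {V : Type} [Fintype V] {n : ℕ} (G : SimpleGraph V) (e : Fin n ≃ V)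
    (h : HasPST G) : HasPST (G.comap e) := by
  classical
  obtain ⟨u, v, t, γ, h1, h2, h⟩ := h
  refine mk_pst _ (e.symm u) (e.symm v) t γ (e.symm.injective.ne h1) h2 ?_
  letI : DecidableEq V := fun a b => Classical.propDecidable (a = b)
  have k := exp_reindex e.symm ((Complex.I * t) • G.adjMatrix ℂ)
  have k2 : Matrix.reindexAlgEquiv ℂ ℂ e.symm ((Complex.I * t) • G.adjMatrix ℂ) =
      (Complex.I * t) • (G.comap e).adjMatrix ℂ := by
    ext a b
    simp [SimpleGraph.adjMatrix_apply]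
  rw [← k2, k]
  funext a
  have := congrFun h (e a)
  simp only [mulVec_single_one, Pi.smul_apply, Pi.single_apply, col_apply] at this ⊢
  simp [this, Equiv.eq_symm_apply]

theorem params (n : ℕ) (hn : 2 * 201 ^ 4 ≤ n) : ∃ b d α β : ℕ, Odd b ∧ 200 ≤ b ∧ 1 ≤ d ∧
    n + d ^ 2 + 3 * α + 8 * β + 2 * b ^ 2 = 2 * b ^ 4 + 1 ∧ d + 2 * α + 3 * β ≤ b ^ 2 ∧
    α + 2 * β ≤ 2 * d + 14 ∧ d ^ 2 ≤ 16 * b ^ 3 ∧ b ^ 4 ≤ n ∧ d ≤ 2 * (b ^ 2 - 2) := by
  have hex : ∃ k : ℕ, n + 14 + 2 * (2 * k + 1) ^ 2 ≤ 2 * (2 * k + 1) ^ 4 :=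
    ⟨n + 14, by nlinarith [Nat.zero_le ((n + 14) ^ 4), Nat.zero_le ((n + 14) ^ 3),
      Nat.zero_le ((n + 14) ^ 2)]⟩
  classical
  obtain ⟨k, hk, hmin⟩ : ∃ k : ℕ, n + 14 + 2 * (2 * k + 1) ^ 2 ≤ 2 * (2 * k + 1) ^ 4 ∧
      ∀ j < k, ¬ n + 14 + 2 * (2 * j + 1) ^ 2 ≤ 2 * (2 * j + 1) ^ 4 :=
    ⟨Nat.find hex, Nat.find_spec hex, fun j hj => Nat.find_min hex hj⟩
  have hk1 : 100 < k := by
    by_contra hc
    have : (2 * k + 1) ^ 4 ≤ 201 ^ 4 := Nat.pow_le_pow_left (by omega) 4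
    omega
  obtain ⟨j, rfl⟩ : ∃ j, k = j + 1 := ⟨k - 1, by omega⟩
  have hj := not_le.1 (hmin j (by omega))
  obtain ⟨t, ht⟩ : ∃ t, 2 * (2 * (j + 1) + 1) ^ 4 = n + 13 + 2 * (2 * (j + 1) + 1) ^ 2 + t :=
    ⟨2 * (2 * (j + 1) + 1) ^ 4 - (n + 13 + 2 * (2 * (j + 1) + 1) ^ 2), by omega⟩
  have ht1 : 1 ≤ t := by omega
  have ht2 : t ≤ 16 * (2 * (j + 1) + 1) ^ 3 := by
    nlinarith [Nat.zero_le (j ^ 3), Nat.zero_le (j ^ 2)]
  have hn2 : (2 * (j + 1) + 1) ^ 4 ≤ n := by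
    obtain ⟨i, rfl⟩ : ∃ i, j = i + 100 := ⟨j - 100, by omega⟩
    nlinarith [Nat.zero_le (i ^ 4), Nat.zero_le (i ^ 3), Nat.zero_le (i ^ 2)]
  generalize hb : 2 * (j + 1) + 1 = b at *
  have hb1 : 200 ≤ b := by omega
  have hd1 := Nat.sqrt_le' t
  have hd2 := Nat.lt_succ_sqrt' t
  have hd0 : 1 ≤ Nat.sqrt t := Nat.sqrt_pos.2 ht1
  generalize Nat.sqrt t = d at *
  obtain ⟨r, hr⟩ : ∃ r, t + 14 = d ^ 2 + r := ⟨t + 14 - d ^ 2, by omega⟩
  have hr1 : 14 ≤ r := by omega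
  have hr2 : r ≤ 2 * d + 14 := by nlinarith
  obtain ⟨α, β, hab⟩ : ∃ α β, r = 3 * α + 8 * β := ⟨(r - 8 * ((2 * r) % 3)) / 3, (2 * r) % 3, by omega⟩
  have hd3 : 3 * d + 14 ≤ b ^ 2 := by
    by_contra hc
    have h1 : b ^ 2 ≤ 3 * d + 13 := by omega
    have h2 : 40000 ≤ b ^ 2 := by nlinarith
    have h3 : 1000 * b ^ 2 ≤ 3001 * d := by omega
    have h4 : (1000 * b ^ 2) ^ 2 ≤ (3001 * d) ^ 2 := Nat.pow_le_pow_left h3 2
    have h5 : 200 * b ^ 3 ≤ b ^ 4 := by nlinarith [Nat.zero_le (b ^ 3)]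
    have h6 : 0 < b ^ 3 := by positivity
    nlinarith
  exact ⟨b, d, α, β, ⟨j + 1, hb.symm⟩, hb1, hd0, by omega, by omega, by omega, by omega, hn2,
    by omega⟩

theorem upper (n : ℕ) (hn : 2 * 201 ^ 4 ≤ n) : ∃ k : ℕ, minEdges n ≤ k ∧
    (k : ℝ) ≤ n + 26 * (n : ℝ) ^ (3 / 8 : ℝ) := by
  obtain ⟨b, d, α, β, hb, hb1, hd, h1, h2, h3, h4, h5, h6⟩ := params n hn
  have hb2 : 40000 ≤ b ^ 2 := by nlinarith
  obtain ⟨p, hp⟩ : ∃ p, p + 2 = b ^ 2 := ⟨b ^ 2 - 2, by omega⟩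
  obtain ⟨L, _, N, n1, n2, n3, n4⟩ := build p b hp (J := Unit ⊕ Fin α ⊕ Fin β)
    (Sum.elim (fun _ => d) (Sum.elim (fun _ => 2) fun _ => 3))
    (by rintro (j | j | j) <;> simp [hd]) (by rintro (j | j | j) <;> simp <;> omega)
    (by simp; omega)
  simp only [Fintype.sum_sum_type, Sum.elim_inl, Sum.elim_inr, Finset.sum_const, Finset.card_univ,
    Fintype.card_fin, smul_eq_mul, Fintype.card_sum, Fintype.card_unit] at n3 n4
  have hcard : Fintype.card (VV p L) = n := by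
    simp only [Fintype.card_sum, Fintype.card_fin, Fintype.card_prod]
    have : 2 * p * b ^ 2 + 4 * b ^ 2 = 2 * b ^ 4 := by
      have : b ^ 4 = (p + 2) * b ^ 2 := by rw [hp]; ring
      rw [this]; ring
    omega
  let e : Fin n ≃ VV p L := (Fintype.equivFinOfCardEq hcard).symm
  refine ⟨4 + 2 * p + ∑ l, (N l).card, ?_, ?_⟩
  · have iso := SimpleGraph.Iso.comap e (GG p N)
    refine (iInf₂_le ((GG p N).comap e)
      ⟨iso.connected_iff.2 (conn p N n1), pst_iso _ e (pst p N b hb (by omega) hp n2)⟩).trans ?_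
    rw [Set.encard_congr iso.mapEdgeSet]
    exact edges p N
  · have k1 : 4 + 2 * p + ∑ l, (N l).card ≤ n + (3 * d + 14) := by
      simp only [Fintype.card_sum, Fintype.card_fin, Fintype.card_prod] at hcard
      omega
    have k2 : (1 : ℝ) ≤ (n : ℝ) ^ (3 / 8 : ℝ) :=
      Real.one_le_rpow (by exact_mod_cast (by omega : 1 ≤ n)) (by norm_num)
    have k3 : (d : ℝ) ≤ 4 * (n : ℝ) ^ (3 / 8 : ℝ) := by
      apply le_of_pow_le_pow_left₀ (n := 8) (by norm_num) (by positivity)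
      rw [mul_pow, ← Real.rpow_natCast ((n : ℝ) ^ (3 / 8 : ℝ)), ← Real.rpow_mul (by positivity)]
      norm_num
      have a1 : (d ^ 2) ^ 4 ≤ (16 * b ^ 3) ^ 4 := Nat.pow_le_pow_left h4 4
      have a2 : (b ^ 4) ^ 3 ≤ n ^ 3 := Nat.pow_le_pow_left h5 3
      have a3 : d ^ 8 ≤ 65536 * n ^ 3 := by
        calc d ^ 8 = (d ^ 2) ^ 4 := by ring
          _ ≤ (16 * b ^ 3) ^ 4 := a1
          _ = 65536 * (b ^ 4) ^ 3 := by ring
          _ ≤ _ := by omega
      exact_mod_cast a3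
    have k4 : ((4 + 2 * p + ∑ l, (N l).card : ℕ) : ℝ) ≤ n + (3 * d + 14) := by exact_mod_cast k1
    linarith

/-- `n - 1 ≤ m(n) ≤ n + 26 n^{3/8}` for all large `n`; in particular `m(n) ∼ n`. -/
theorem result : ∃ N : ℕ, ∀ n ≥ N, ∃ k : ℕ, minEdges n = k ∧ n ≤ k + 1 ∧
    (k : ℝ) ≤ n + 26 * (n : ℝ) ^ (3 / 8 : ℝ) := by
  refine ⟨2 * 201 ^ 4, fun n hn => ?_⟩
  obtain ⟨k, h1, h2⟩ := upper n hn
  obtain ⟨k', hk'⟩ := ENat.ne_top_iff_exists.1 (ne_top_of_le_ne_top (ENat.natCast_ne_top k) h1)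
  refine ⟨k', hk'.symm, ?_, ?_⟩
  · have : ((n - 1 : ℕ) : ℕ∞) ≤ minEdges n := by
      refine le_iInf₂ fun G hG => ?_
      have := hG.1.card_vert_le_card_edgeSet_add_one
      rw [← Set.Finite.cast_ncard_eq (Set.toFinite _), Nat.cast_le, ← Nat.card_coe_set_eq]
      simp only [Nat.card_eq_fintype_card, Fintype.card_fin] at this
      omega
    rw [← hk', Nat.cast_le] at this
    omega
  · rw [← hk', Nat.cast_le] at h1
    have : (k' : ℝ) ≤ k := by exact_mod_cast h1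
    linarith

end Pool.Agent.Results.MP_8f05cb_co.Asymptotic
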